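import Pool.Agent.Y433.Global

/-!
Vince's conjecture on the connected set density: a finite connected simple graph
all of whose degrees are at least three has connected set density at least one
half; in fact at least `1/2 + 1/(2N)`, `N` being the number of connected sets.
-/

namespace Pool.Agent.Results.MP_900e3c_co.DensityHalf

open Finset
open scoped Classical

variable {V : Type*} [Fintype V]

/-- The family of connected sets of `G`: vertex sets inducing a connected subgraph
(Mathlib's `Connected` includes being nonempty). -/
noncomputable def connectedSets (G : SimpleGraph V) : Finset (Finset V) :=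
  univ.filter (fun S : Finset V => (G.induce (S : Set V)).Connected)

/-- The average size of a connected set of `G`. -/
noncomputable def averageSize (G : SimpleGraph V) : ℝ :=
  (1 / ((connectedSets G).card : ℝ)) * ∑ S ∈ connectedSets G, (S.card : ℝ)

/-- The connected set density of `G`. -/
noncomputable def density (G : SimpleGraph V) : ℝ :=
  averageSize G / (Fintype.card V : ℝ)

/-- Every finite connected simple graph with minimum degree at least three has
connected set density at least `1/2 + 1/(2N)`. -/
theorem result (G : SimpleGraph V) [DecidableRel G.Adj] (hG : G.Connected)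
    (hdeg : 3 ≤ G.minDegree) :
    1 / 2 + 1 / (2 * ((connectedSets G).card : ℝ)) ≤ density G := by
  have hcc : connectedSets G = Pool.Agent.Y433.CC G := by
    ext S
    simp only [connectedSets, mem_filter, mem_univ, true_and]
    rw [Pool.Agent.Y433.mem_CC, Pool.Agent.Y433.cn_iff]
  have huniv : Pool.Agent.Y433.Cn G (univ : Finset V) := by
    rw [Pool.Agent.Y433.cn_iff]
    have e : ((univ : Finset V) : Set V) = Set.univ := coe_univ
    rw [e]
    exact (SimpleGraph.induceUnivIso G).connected_iff.mpr hG
  have hd : ∀ v, 3 ≤ (univ.filter (fun w => G.Adj v w)).card := by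
    intro v
    have h1 := G.minDegree_le_degree v
    have h2 : G.degree v = (univ.filter (fun w => G.Adj v w)).card := by
      rw [← SimpleGraph.card_neighborFinset_eq_degree]
      congr 1
      ext w
      simp
    omega
  have hmain := Pool.Agent.Y433.main_ineq huniv (fun v => by convert hd v)
  rw [← hcc] at hmain
  have hNpos : 0 < (connectedSets G).card := by
    rw [card_pos, hcc]
    exact ⟨univ, Pool.Agent.Y433.mem_CC.mpr huniv⟩
  have hnpos : 0 < Fintype.card V := by
    have := hG.nonempty
    exact Fintype.card_pos
  have hN : (0 : ℝ) < ((connectedSets G).card : ℝ) := by exact_mod_cast hNpos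
  have hn : (0 : ℝ) < (Fintype.card V : ℝ) := by exact_mod_cast hnpos
  have hm : (Fintype.card V : ℝ) * (connectedSets G).card + Fintype.card V ≤
      2 * ∑ S ∈ connectedSets G, (S.card : ℝ) := by exact_mod_cast hmain
  unfold density averageSize
  rw [le_div_iff₀ hn, one_div_mul_eq_div, le_div_iff₀ hN]
  have e : (1 / 2 + 1 / (2 * ((connectedSets G).card : ℝ))) * (Fintype.card V : ℝ) *
      (connectedSets G).card =
      ((Fintype.card V : ℝ) * (connectedSets G).card + Fintype.card V) / 2 := by
    field_simp
  rw [e]
  linarith

end Pool.Agent.Results.MP_900e3c_co.DensityHalf
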